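import Pool.Agent.helper25.MC.B2

/-! # Project MC, module D, parts (1) and (2) -/

namespace Pool.Agent.helper76.MC

open Finset Pool.Agent.helper34.DH Pool.Agent.helper76.FV Pool.Agent.helper76.LP
open Pool.Agent.helper76.UR
open Matrix (SpecialLinearGroup)

/-- the sum of the points of a formal sum -/
noncomputable def D1_s0 : (QZ →₀ ℤ) →+ QZ :=
  Finsupp.liftAddHom (fun g : QZ => zmultiplesHom QZ g)

theorem D1_s0_single (g : QZ) (n : ℤ) : D1_s0 (Finsupp.single g n) = n • g := by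
  unfold D1_s0
  rw [Finsupp.liftAddHom_apply_single]
  rfl

theorem D1_s0_emb (s : Multiset QZ) : D1_s0 (helper34.DH.emb s) = s.sum := by
  induction s using Multiset.induction_on with
  | empty => rw [helper34.DH.emb_zero, map_zero, Multiset.sum_zero]
  | cons a s ih => rw [emb_cons, map_add, ih, D1_s0_single, one_smul, Multiset.sum_cons]

theorem D1_half : (2 : ℤ) • half = 0 := by
  unfold half
  rw [← AddCircle.coe_zsmul, coe_eq_zero_iff]
  have : (2 : ℤ) • (1 / 2 : ℚ) = ((1 : ℤ) : ℚ) := by norm_num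
  rw [this, Int.fract_intCast]

theorem D1_sum_range (p : ℕ) (x : QZ) (y : ℕ → QZ) :
    ((Multiset.range p).map (fun i : ℕ => x + y i)).sum = p • x + ∑ i ∈ Finset.range p, y i := by
  have : ((Multiset.range p).map (fun i : ℕ => x + y i)).sum =
      ∑ i ∈ Finset.range p, (x + y i) := by
    rw [Finset.sum, Finset.range_val]
  rw [this, Finset.sum_add_distrib, Finset.sum_const, Finset.card_range]

theorem D1_R (r : QZ →₀ ℤ) (hr : r ∈ R) : D1_s0 r = 0 := by
  refine AddSubgroup.closure_induction (p := fun r _ => D1_s0 r = 0) ?_ ?_ ?_ ?_ hr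
  · rintro _ ⟨s, hs, rfl⟩
    rw [D1_s0_emb]
    cases hs with
    | pair c hc =>
      change (c ::ₘ (-c) ::ₘ 0).sum = 0
      rw [Multiset.sum_cons, Multiset.sum_cons, Multiset.sum_zero, add_zero, add_neg_cancel]
    | odd p hp hodd x hx =>
      rw [Multiset.sum_cons, D1_sum_range, neg_add_cancel_left]
      obtain ⟨k, hk⟩ := hodd
      have h1 : ∑ i ∈ Finset.range p, ((((i : ℚ) / p : ℚ)) : QZ) =
          ((∑ i ∈ Finset.range p, ((i : ℚ) / p) : ℚ) : QZ) := by
        exact (map_sum (QuotientAddGroup.mk' (AddSubgroup.zmultiples (1 : ℚ)))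
          (fun i : ℕ => ((i : ℚ) / p)) (Finset.range p)).symm
      rw [h1, coe_eq_zero_iff]
      have h2 : ∑ i ∈ Finset.range p, ((i : ℚ) / p) = ((k : ℤ) : ℚ) := by
        rw [← Finset.sum_div]
        have h3 : (∑ i ∈ Finset.range p, (i : ℚ)) * 2 = p * (p - 1) := by
          have h4 := Finset.sum_range_id_mul_two p
          have hp1 : 1 ≤ p := hp.one_lt.le
          have h5 : (((∑ i ∈ Finset.range p, i) * 2 : ℕ) : ℚ) = ((p * (p - 1) : ℕ) : ℚ) := by
            rw [h4]
          push_cast [hp1] at h5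
          exact h5
        have hp0 : (p : ℚ) ≠ 0 := by exact_mod_cast hp.ne_zero
        have hk' : (p : ℚ) = 2 * k + 1 := by exact_mod_cast hk
        field_simp
        have : (∑ i ∈ Finset.range p, (i : ℚ)) * 2 = p * ((k : ℤ) : ℚ) * 2 := by
          rw [h3]
          push_cast
          rw [hk']
          ring
        linarith
      rw [h2, Int.fract_intCast]
    | two x hx =>
      change (x ::ₘ (x + half) ::ₘ (-(2 • x)) ::ₘ half ::ₘ 0).sum = 0
      rw [Multiset.sum_cons, Multiset.sum_cons, Multiset.sum_cons, Multiset.sum_cons,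
        Multiset.sum_zero, add_zero]
      have h2 := D1_half
      rw [two_zsmul] at h2
      have h3 : x + (x + half + (-(2 • x) + half)) = half + half := by
        rw [two_nsmul]
        abel
      rw [h3, h2]
  · exact map_zero _
  · intro a b _ _ ha hb
    rw [map_add, ha, hb, add_zero]
  · intro a _ ha
    rw [map_neg, ha, neg_zero]

/-- the sum of the points, on classes -/
noncomputable def D1_s : Qt →+ QZ := QuotientAddGroup.lift R D1_s0 D1_R

theorem D1_s_mk (r : QZ →₀ ℤ) : D1_s (mk r) = D1_s0 r := rfl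

theorem D1_s_rho (g : QZ) : D1_s (Pool.Agent.helper34.DH.ρ g) = g := by
  by_cases h : g = 0
  · rw [h]
    unfold Pool.Agent.helper34.DH.ρ
    rw [if_pos rfl, map_zero]
  · rw [rho_of_ne h, D1_s_mk, D1_s0_single, one_smul]

theorem D1_s_F (x : ℚ) : D1_s (F x) = (x : QZ) := D1_s_rho _

theorem D1_s_hh : D1_s hh = half := D1_s_F _

theorem D1_saw_neg (m : ℕ) [NeZero m] (x : ZMod m) : saw m (-x) = - saw m x := by
  unfold saw
  by_cases hx : x = 0
  · simp [hx]
  · rw [if_neg hx, if_neg (by simpa using hx)]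
    have h1 : (-x).val = m - x.val := by
      have : NeZero x := ⟨hx⟩
      exact ZMod.val_neg_of_ne_zero x
    have h2 : x.val < m := ZMod.val_lt x
    rw [h1]
    push_cast [h2.le]
    ring

/-- twice the sum of a Tate function vanishes -/
theorem D1_two_cls (m : ℕ) [NeZero m] (c : ZMod m → ℤ) (hT : TateF (anti c)) :
    (2 : ℤ) • D1_s (cls m c) = 0 := by
  have hm : (m : ℚ) ≠ 0 := by exact_mod_cast NeZero.ne m
  have h1 := hT 1
  simp only [Units.val_one, one_mul] at h1
  have h2 : ∑ x, anti c x * saw m x = 2 * ∑ x, c x * saw m x := by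
    unfold anti
    have h3 : ∑ x, c (-x) * saw m x = - ∑ x, c x * saw m x := by
      rw [← Equiv.sum_comp (Equiv.neg (ZMod m)), ← Finset.sum_neg_distrib]
      apply Finset.sum_congr rfl
      intro x _
      rw [Equiv.neg_apply, neg_neg, D1_saw_neg]
      ring
    simp_rw [sub_mul]
    rw [Finset.sum_sub_distrib, h3]
    ring
  rw [h2] at h1
  have h3 : ∑ x, c x * saw m x = 0 := by omega
  have h4 : ∑ x, c x * (2 * (x.val : ℤ)) = m * ∑ x, (if x = 0 then 0 else c x) := by
    have h4' : ∑ x, (c x * (2 * (x.val : ℤ)) - m * (if x = 0 then 0 else c x)) =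
        ∑ x, c x * saw m x := by
      apply Finset.sum_congr rfl
      intro x _
      unfold saw
      by_cases hx : x = 0
      · simp [hx]
      · rw [if_neg hx, if_neg hx]
        ring
    rw [Finset.sum_sub_distrib, ← Finset.mul_sum, h3] at h4'
    linarith
  have h5 : D1_s (cls m c) = ((∑ x, (c x : ℚ) * ((x.val : ℚ) / m) : ℚ) : QZ) := by
    unfold LP.cls
    rw [map_sum]
    have h6 : ((∑ x, (c x : ℚ) * ((x.val : ℚ) / m) : ℚ) : QZ) =
        ∑ x, (((c x : ℚ) * ((x.val : ℚ) / m) : ℚ) : QZ) :=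
      map_sum (QuotientAddGroup.mk' (AddSubgroup.zmultiples (1 : ℚ))) _ _
    rw [h6]
    apply Finset.sum_congr rfl
    intro x _
    rw [map_zsmul]
    unfold cl
    rw [D1_s_F, ← AddCircle.coe_zsmul, zsmul_eq_mul]
  rw [h5, ← AddCircle.coe_zsmul, coe_eq_zero_iff]
  have h6 : (2 : ℤ) • ∑ x, (c x : ℚ) * ((x.val : ℚ) / m) =
      ((∑ x : ZMod m, (if x = 0 then 0 else c x) : ℤ) : ℚ) := by
    have h7 : ((∑ x, c x * (2 * (x.val : ℤ)) : ℤ) : ℚ) =
        ((m * ∑ x : ZMod m, (if x = 0 then 0 else c x) : ℤ) : ℚ) := by rw [h4]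
    rw [zsmul_eq_mul, Finset.mul_sum]
    rw [Int.cast_mul] at h7
    have h8 : ((2 : ℤ) : ℚ) * ∑ x, (c x : ℚ) * ((x.val : ℚ) / m) =
        ((∑ x, c x * (2 * (x.val : ℤ)) : ℤ) : ℚ) / m := by
      rw [Finset.mul_sum, Int.cast_sum, Finset.sum_div]
      apply Finset.sum_congr rfl
      intro x _
      push_cast
      ring
    rw [← Finset.mul_sum, h8, h7]
    push_cast
    field_simp
  rw [h6, Int.fract_intCast]

theorem D1_two_MG {q : Qt} (hq : q ∈ MG) : (2 : ℤ) • D1_s q = 0 := by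
  refine AddSubgroup.closure_induction (p := fun q _ => (2 : ℤ) • D1_s q = 0) ?_ ?_ ?_ ?_ hq
  · rintro _ (⟨c, hc, rfl⟩ | rfl)
    · rw [D1_s_mk, D1_s0_emb, isCong_sum hc, smul_zero]
    · rw [D1_s_hh, D1_half]
  · rw [map_zero, smul_zero]
  · intro a b _ _ ha hb
    rw [map_add, smul_add, ha, hb, add_zero]
  · intro a _ ha
    rw [map_neg, smul_neg, ha, neg_zero]

/-- part (1) of module D -/
theorem D1_mem_MG (hthree : (3 : ℤ) • F (1 / 3) ∈ MG) (m : ℕ) [NeZero m] (c : ZMod m → ℤ)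
    (hT : TateF (anti c)) (h : cls m c ∈ MG') : cls m c ∈ MG := by
  unfold MG' at h
  obtain ⟨q, hq, r, hr, hqr⟩ := AddSubgroup.mem_sup.1 h
  obtain ⟨k, rfl⟩ := AddSubgroup.mem_zmultiples_iff.1 hr
  have h1 := D1_two_cls m c hT
  rw [← hqr, map_add, smul_add, D1_two_MG hq, zero_add, map_zsmul, D1_s_F, smul_smul,
    ← AddCircle.coe_zsmul, coe_eq_zero_iff, Int.fract_eq_zero_iff] at h1
  obtain ⟨n, hn⟩ := h1
  rw [zsmul_eq_mul] at hn
  have h2 : 3 * n = 2 * k := by
    have : (3 : ℚ) * n = 2 * k := by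
      rw [hn]
      push_cast
      ring
    exact_mod_cast this
  obtain ⟨l, hl⟩ : ∃ l : ℤ, k = l * 3 := ⟨k / 3, by omega⟩
  rw [← hqr, hl, mul_smul]
  exact MG.add_mem hq (MG.zsmul_mem hthree l)

/-- part (2) of module D -/
theorem D1_exists {q : Qt} (hq : q ∈ MG) :
    ∃ c0 : Multiset QZ, IsCong c0 ∧ ∃ j : ℤ, q = mk (helper34.DH.emb c0) + j • hh := by
  refine AddSubgroup.closure_induction (p := fun q _ => ∃ c0 : Multiset QZ, IsCong c0 ∧
    ∃ j : ℤ, q = mk (helper34.DH.emb c0) + j • hh) ?_ ?_ ?_ ?_ hq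
  · rintro _ (⟨c, hc, rfl⟩ | rfl)
    · exact ⟨c, hc, 0, by rw [zero_smul, add_zero]⟩
    · exact ⟨0, isCong_zero, 1, by rw [helper34.DH.emb_zero, map_zero, zero_add, one_smul]⟩
  · exact ⟨0, isCong_zero, 0, by rw [helper34.DH.emb_zero, map_zero, zero_add, zero_smul]⟩
  · rintro a b _ _ ⟨c, hc, j, rfl⟩ ⟨c', hc', j', rfl⟩
    refine ⟨c + c', isCong_add hc hc', j + j', ?_⟩
    rw [map_add, map_add, add_smul]
    abel
  · rintro a _ ⟨c, hc, j, rfl⟩
    refine ⟨c.map (fun x => -x), isCong_neg hc, -j, ?_⟩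
    have hne := isCong_ne hc
    have hne' : ∀ g ∈ c.map (fun x => -x), g ≠ 0 := by
      intro g hg
      obtain ⟨x, hx, rfl⟩ := Multiset.mem_map.1 hg
      exact neg_ne_zero.2 (hne x hx)
    rw [mk_emb _ hne', mk_emb _ hne, Multiset.map_map, neg_add, neg_smul]
    congr 1
    have : (Pool.Agent.helper34.DH.ρ ∘ fun x : QZ => -x) =
        fun x => - Pool.Agent.helper34.DH.ρ x := by
      funext x
      exact rho_neg x
    rw [this, Multiset.sum_map_neg]

end Pool.Agent.helper76.MC
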