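import Pool.Agent.helper77.MC.Spec

/-!
# Row mc:JC (MP_7e34bc_co, Q2, middle range): numberings with two nested prefixes
-/

set_option autoImplicit false

namespace Pool.Agent.helper77.MC

open Finset Numbering

private lemma JC_key {β : Type} [Fintype β] [DecidableEq β] (t : Finset β)
    (f : (prefixed t : Finset (Numbering β))) (x : β) (hx : x ∈ t) :
    (((prefixedEquiv t f).1 ⟨x, hx⟩ : Fin (Fintype.card t)) : ℕ) = (f.1 x : ℕ) := rfl

theorem JC : JC_stmt := by
  intro β _ _ s t hst
  obtain ⟨st, hstd⟩ : ∃ st : Finset {x // x ∈ t}, st = s.subtype (fun x => x ∈ t) := ⟨_, rfl⟩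
  have hmem : ∀ (x : β) (hx : x ∈ t), (⟨x, hx⟩ : {x // x ∈ t}) ∈ st ↔ x ∈ s := by
    intro x hx
    rw [hstd, Finset.mem_subtype]
  have hcard : st.card = s.card := by
    rw [hstd, Finset.card_subtype, Finset.filter_true_of_mem fun x hx => hst hx]
  have hle : #s ≤ #t := Finset.card_le_card hst
  have h1 : #((prefixed s : Finset (Numbering β)) ∩ prefixed t) =
      #((prefixed st : Finset (Numbering {x // x ∈ t})) ×ˢ
        (univ : Finset (Numbering {x // x ∈ tᶜ}))) := by
    refine Finset.card_bij (fun f hf => prefixedEquiv t ⟨f, (Finset.mem_inter.1 hf).2⟩) ?_ ?_ ?_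
    · intro f hf
      have hfs := mem_prefixed.1 (Finset.mem_inter.1 hf).1
      refine Finset.mem_product.2 ⟨mem_prefixed.2 ?_, Finset.mem_univ _⟩
      rintro ⟨x, hx⟩
      rw [hmem, hcard, JC_key]
      exact hfs x
    · intro f hf f' hf' h
      have h2 := (prefixedEquiv t).injective h
      exact congrArg Subtype.val h2
    · rintro ⟨g, g'⟩ hg
      have hg1 := mem_prefixed.1 (Finset.mem_product.1 hg).1
      obtain ⟨f, hf⟩ : ∃ f, f = (prefixedEquiv t).symm (g, g') := ⟨_, rfl⟩
      have hfe : prefixedEquiv t f = (g, g') := by rw [hf, Equiv.apply_symm_apply]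
      have hft := mem_prefixed.1 f.2
      have hfs : f.1 ∈ (prefixed s : Finset (Numbering β)) := by
        refine mem_prefixed.2 fun x => ?_
        by_cases hx : x ∈ t
        · rw [← hmem x hx]
          have h3 := hg1 ⟨x, hx⟩
          have h4 := JC_key t f x hx
          rw [hfe] at h4
          rw [h3, hcard, ← h4]
        · have h3 := (hft x).not.1 hx
          constructor
          · intro hxs
            exact absurd (hst hxs) hx
          · intro hlt
            omega
      exact ⟨f.1, Finset.mem_inter.2 ⟨hfs, f.2⟩, hfe⟩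
  rw [h1, Finset.card_product, card_prefixed, card_prefixed, Finset.card_univ, Fintype.card_numbering,
    Fintype.card_coe, Fintype.card_coe, Finset.card_compl, hcard]
  have h2 := Nat.choose_mul_factorial_mul_factorial hle
  calc (#s).factorial * (#t - #s).factorial * (Fintype.card β - #t).factorial * (#t).choose #s
      = ((#t).choose #s * (#s).factorial * (#t - #s).factorial) * (Fintype.card β - #t).factorial := by ring
    _ = (#t).factorial * (Fintype.card β - #t).factorial := by rw [h2]

end Pool.Agent.helper77.MC
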