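import Pool.Agent.helper76.MC.Defs

/-! # Project MC, module K: characters of `SL₂(ℤ/4)` and `SL₂(ℤ/6)` -/

namespace Pool.Agent.helper76.MC

open Finset Pool.Agent.helper34.DH Pool.Agent.helper76.FV Pool.Agent.helper76.LP
open Pool.Agent.helper76.UR
open Matrix (SpecialLinearGroup)

/-- the polynomial formula for the exponent of the character -/
def K_f {N : ℕ} (a b c d : ZMod N) : ZMod N :=
  (1 - c * c) * (b * d + 3 * (c - 1) * d + c + 3) + c * (a + d - 3)

/-- the exponent of the character -/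
def K_e {N : ℕ} (g : SpecialLinearGroup (Fin 2) (ZMod N)) : ZMod N :=
  K_f (g.1 0 0) (g.1 0 1) (g.1 1 0) (g.1 1 1)

theorem K_mul_of {N : ℕ} (h : ∀ a b c d : ZMod N, a * d - b * c = 1 →
      ∀ a' b' c' d' : ZMod N, a' * d' - b' * c' = 1 →
      K_f (a * a' + b * c') (a * b' + b * d') (c * a' + d * c') (c * b' + d * d') =
        K_f a b c d + K_f a' b' c' d') (g k : SpecialLinearGroup (Fin 2) (ZMod N)) :
    K_e (g * k) = K_e g + K_e k := by
  have hg := g.2
  have hk := k.2
  rw [Matrix.det_fin_two] at hg hk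
  have := h _ _ _ _ hg _ _ _ _ hk
  simpa [K_e, Matrix.mul_apply, Fin.sum_univ_two] using this

theorem K_char {N : ℕ} [NeZero N] (h : ∀ g k : SpecialLinearGroup (Fin 2) (ZMod N),
      K_e (g * k) = K_e g + K_e k) (σ : ℂ) (hσ : ZMod.stdAddChar (K_e (-1 :
        SpecialLinearGroup (Fin 2) (ZMod N))) = σ)
      (hT : K_e (mT N) = 1) :
    CongRep N σ {((1 / N : ℚ) : QZ)} := by
  have h1 : K_e (1 : SpecialLinearGroup (Fin 2) (ZMod N)) = 0 := by
    have := h 1 1
    rw [mul_one] at this
    simpa using this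
  refine ⟨ℂ, inferInstance, inferInstance,
    { toFun := fun g => ZMod.stdAddChar (K_e g) • (1 : ℂ →ₗ[ℂ] ℂ)
      map_one' := by rw [h1, AddChar.map_zero_eq_one, one_smul]
      map_mul' := fun g k => by
        rw [h, AddChar.map_add_eq_mul, smul_mul_smul_comm, mul_one] }, ?_, ?_⟩
  · change ZMod.stdAddChar (K_e (-1)) • (1 : ℂ →ₗ[ℂ] ℂ) = _
    rw [hσ]
  · refine ⟨1, Module.Basis.singleton (Fin 1) ℂ, fun _ => ((1 / N : ℚ) : QZ), ?_, ?_⟩
    · intro i
      change (ZMod.stdAddChar (K_e (mT N)) • (1 : ℂ →ₗ[ℂ] ℂ)) _ = _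
      rw [hT, LinearMap.smul_apply, Module.End.one_apply]
      congr 1
      have h2 : (ZMod.stdAddChar ((1 : ℤ) : ZMod N) : ℂ) = _ := ZMod.stdAddChar_coe 1
      rw [Int.cast_one] at h2
      rw [h2]
      change _ = Complex.exp (2 * Real.pi * Complex.I * ((1 / N : ℚ) : ℂ))
      congr 1
      push_cast
      ring
    · simp

/-- the same with natural numbers -/
def K_n (N a b c d : ℕ) : ℕ :=
  ((1 + c * c * (N - 1)) * (b * d + 3 * (c + (N - 1)) * d + c + 3) + c * (a + d + 3 * (N - 1))) % N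

lemma K_f_nat {N : ℕ} (hN : 0 < N) (a b c d : ℕ) :
    K_f (a : ZMod N) (b : ZMod N) (c : ZMod N) (d : ZMod N) = ((K_n N a b c d : ℕ) : ZMod N) := by
  unfold K_f K_n
  rw [ZMod.natCast_mod]
  have h : ((N - 1 : ℕ) : ZMod N) = -1 := by
    rw [Nat.cast_sub hN]
    simp
  push_cast
  rw [h]
  ring

/-- the check -/
def K_chk (N : ℕ) : Bool :=
  (List.range N).all fun a => (List.range N).all fun b => (List.range N).all fun c =>
    (List.range N).all fun d => !Nat.beq ((a * d + (N - 1) * (b * c)) % N) 1 ||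
      (List.range N).all fun a' => (List.range N).all fun b' => (List.range N).all fun c' =>
        (List.range N).all fun d' => !Nat.beq ((a' * d' + (N - 1) * (b' * c')) % N) 1 ||
          Nat.beq (K_n N ((a * a' + b * c') % N) ((a * b' + b * d') % N) ((c * a' + d * c') % N)
            ((c * b' + d * d') % N)) ((K_n N a b c d + K_n N a' b' c' d') % N)

lemma K_of_chk (N : ℕ) [NeZero N] (h1 : 1 < N) (h : K_chk N = true) :
    ∀ a b c d : ZMod N, a * d - b * c = 1 →
      ∀ a' b' c' d' : ZMod N, a' * d' - b' * c' = 1 →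
      K_f (a * a' + b * c') (a * b' + b * d') (c * a' + d * c') (c * b' + d * d') =
        K_f a b c d + K_f a' b' c' d' := by
  have hN : 0 < N := by omega
  have hc : ((N - 1 : ℕ) : ZMod N) = -1 := by
    rw [Nat.cast_sub hN]
    simp
  have hdet : ∀ a b c d : ZMod N, a * d - b * c = 1 →
      (a.val * d.val + (N - 1) * (b.val * c.val)) % N = 1 := by
    intro a b c d h
    have h2 : (((a.val * d.val + (N - 1) * (b.val * c.val) : ℕ)) : ZMod N) = ((1 : ℕ) : ZMod N) := by
      push_cast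
      rw [hc]
      simp only [ZMod.natCast_val, ZMod.cast_id', id_eq]
      have h3 : a * d + -1 * (b * c) = a * d - b * c := by ring
      rw [h3, h]
    have h3 := (ZMod.natCast_eq_natCast_iff' _ _ N).1 h2
    rw [h3]
    exact Nat.mod_eq_of_lt h1
  intro a b c d hd a' b' c' d' hd'
  unfold K_chk at h
  simp only [List.all_eq_true, List.mem_range, Bool.or_eq_true, Bool.not_eq_true'] at h
  have h5 := h a.val (ZMod.val_lt a) b.val (ZMod.val_lt b) c.val (ZMod.val_lt c) d.val
    (ZMod.val_lt d)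
  rcases h5 with h5 | h5
  · rw [hdet a b c d hd] at h5
    simp at h5
  have h6 := h5 a'.val (ZMod.val_lt a') b'.val (ZMod.val_lt b') c'.val (ZMod.val_lt c') d'.val
    (ZMod.val_lt d')
  rcases h6 with h6 | h6
  · rw [hdet a' b' c' d' hd'] at h6
    simp at h6
  have h7 := Nat.eq_of_beq_eq_true h6
  have h8 : ((K_n N ((a.val * a'.val + b.val * c'.val) % N)
      ((a.val * b'.val + b.val * d'.val) % N)
      ((c.val * a'.val + d.val * c'.val) % N)
      ((c.val * b'.val + d.val * d'.val) % N) : ℕ) : ZMod N) =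
      (((K_n N a.val b.val c.val d.val + K_n N a'.val b'.val c'.val d'.val) % N : ℕ) : ZMod N) := by
    rw [h7]
  rw [ZMod.natCast_mod, Nat.cast_add, ← K_f_nat hN, ← K_f_nat hN, ← K_f_nat hN] at h8
  simp only [ZMod.natCast_mod] at h8
  push_cast at h8
  simpa only [ZMod.natCast_val, ZMod.cast_id', id_eq] using h8

set_option maxRecDepth 100000 in
theorem K_four : ∀ a b c d : ZMod 4, a * d - b * c = 1 →
      ∀ a' b' c' d' : ZMod 4, a' * d' - b' * c' = 1 →
      K_f (a * a' + b * c') (a * b' + b * d') (c * a' + d * c') (c * b' + d * d') =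
        K_f a b c d + K_f a' b' c' d' :=
  K_of_chk 4 (by norm_num) (by decide +kernel)

set_option maxRecDepth 100000 in
theorem K_six : ∀ a b c d : ZMod 6, a * d - b * c = 1 →
      ∀ a' b' c' d' : ZMod 6, a' * d' - b' * c' = 1 →
      K_f (a * a' + b * c') (a * b' + b * d') (c * a' + d * c') (c * b' + d * d') =
        K_f a b c d + K_f a' b' c' d' :=
  K_of_chk 6 (by norm_num) (by decide +kernel)

theorem rep_four : CongRep 4 (-1) {((1 / 4 : ℚ) : QZ)} := by
  have h := K_char (N := 4) (K_mul_of K_four) (-1) ?_ ?_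
  · exact_mod_cast h
  · have h0 : K_e (-1 : SpecialLinearGroup (Fin 2) (ZMod 4)) = ((2 : ℤ) : ZMod 4) := by
      decide +kernel
    rw [h0, ZMod.stdAddChar_coe]
    rw [← Complex.exp_pi_mul_I]
    congr 1
    push_cast
    ring
  · decide +kernel

theorem rep_six : CongRep 6 1 {((1 / 6 : ℚ) : QZ)} := by
  have h := K_char (N := 6) (K_mul_of K_six) 1 ?_ ?_
  · exact_mod_cast h
  · have h0 : K_e (-1 : SpecialLinearGroup (Fin 2) (ZMod 6)) = 0 := by
      decide +kernel
    rw [h0, AddChar.map_zero_eq_one]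
  · decide +kernel

end Pool.Agent.helper76.MC
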